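import Pool.Agent.W734.STS.Stms

/-! Project STS, part PHI: the interaction. -/

set_option autoImplicit false

noncomputable section

namespace Pool.Agent.W451.STS

open Pool.Agent.W734.STS
open scoped Classical

/-- the patterns -/
def pat : ℕ → ℤ → Finset ℤ
  | 0, t => {t, t + 1}
  | 1, t => {t, t + 1, t + 2}
  | (i + 2), t => {t, t + D (i + 1)}

/-- the lengths -/
def ln : ℕ → ℕ
  | 0 => 1
  | 1 => 2
  | (i + 2) => D (i + 1)

/-- the letter -/
def ltr (k : ℕ) : Fin 2 := if k = 1 then 1 else 0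

/-- the weight -/
def wt : ℕ → ℝ
  | 0 => 1
  | 1 => 1
  | (i + 2) => lam ^ (i + 1)

lemma mem_pat (k : ℕ) (t j : ℤ) :
    j ∈ pat k t ↔ j = t ∨ j = t + ln k ∨ (k = 1 ∧ j = t + 1) := by
  match k with
  | 0 => simp [pat, ln]
  | 1 =>
    simp only [pat, ln, Finset.mem_insert, Finset.mem_singleton]
    push_cast
    tauto
  | (i + 2) => simp [pat, ln]

lemma D_lt (i : ℕ) : D (i + 1) < D (i + 2) := by
  unfold D
  have h1 : Nat.fib (i + 2 + 4) = Nat.fib (i + 4) + Nat.fib (i + 1 + 4) := by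
    rw [show i + 2 + 4 = (i + 4) + 2 by ring, Nat.fib_add_two]
  have h2 : 3 ≤ Nat.fib (i + 4) := by
    calc 3 = Nat.fib 4 := by decide
      _ ≤ Nat.fib (i + 4) := Nat.fib_mono (by omega)
  split_ifs <;> omega

lemma ln_strictMono : StrictMono ln := by
  apply strictMono_nat_of_lt_succ
  intro k
  match k with
  | 0 => show 1 < 2; norm_num
  | 1 => show 2 < D 1; decide
  | (i + 2) => exact D_lt i

lemma le_ln (k : ℕ) : k ≤ ln k := ln_strictMono.id_le k

lemma ln_pos (k : ℕ) : 1 ≤ ln k := by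
  calc 1 = ln 0 := rfl
    _ ≤ ln k := ln_strictMono.monotone (Nat.zero_le k)

lemma two_le_ln {k : ℕ} (h : k = 1) : 2 ≤ ln k := by rw [h]; exact le_refl 2

lemma pat_inj : Function.Injective (fun p : ℕ × ℤ => pat p.1 p.2) := by
  rintro ⟨k, t⟩ ⟨k', t'⟩ h
  simp only at h
  have h1 : t ∈ pat k' t' := by rw [← h, mem_pat]; left; rfl
  have h2 : t' ∈ pat k t := by rw [h, mem_pat]; left; rfl
  rw [mem_pat] at h1 h2
  have ht : t = t' := by omega
  subst ht
  have h3 : t + ln k ∈ pat k' t := by rw [← h, mem_pat]; right; left; rfl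
  have h4 : t + ln k' ∈ pat k t := by rw [h, mem_pat]; right; left; rfl
  rw [mem_pat] at h3 h4
  have g1 := ln_pos k
  have g2 := ln_pos k'
  have hk : ln k = ln k' := by
    rcases h3 with h3 | h3 | ⟨h3, h3'⟩
    · omega
    · omega
    · have := two_le_ln h3
      rcases h4 with h4 | h4 | ⟨h4, h4'⟩
      · omega
      · omega
      · omega
  rw [ln_strictMono.injective hk]

/-- the pattern occurs in `X` -/
def ind (k : ℕ) (t : ℤ) (X : Cf) : Prop := ∀ j ∈ pat k t, X j = ltr k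

lemma wt_pos (k : ℕ) : 0 < wt k := by
  match k with
  | 0 => exact one_pos
  | 1 => exact one_pos
  | (i + 2) => show 0 < lam ^ (i + 1); unfold lam; positivity

lemma summable_wt : Summable wt := by
  rw [← summable_nat_add_iff 1]
  rw [← summable_nat_add_iff 1]
  show Summable (fun i : ℕ => lam ^ (i + 1))
  have : Summable (fun i : ℕ => lam ^ i) :=
    summable_geometric_of_lt_one (by unfold lam; norm_num) (by unfold lam; norm_num)
  exact (summable_nat_add_iff 1).mpr this

lemma summ1 (f : ℕ → ℤ) : Summable (fun p : ℕ × ℤ => if p.2 = f p.1 then wt p.1 else 0) := by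
  have hinj : Function.Injective (fun k : ℕ => (k, f k)) := by
    intro a b h
    simp only [Prod.mk.injEq] at h
    exact h.1
  rw [← hinj.summable_iff]
  · refine summable_wt.congr ?_
    intro k
    simp
  · rintro ⟨k, t⟩ h
    rw [if_neg]
    rintro h2
    simp only at h2
    exact h ⟨k, by simp [h2]⟩

lemma summ2 (j : ℤ) : Summable (fun p : ℕ × ℤ => if j ∈ pat p.1 p.2 then wt p.1 else 0) := by
  have h := ((summ1 (fun _ => j)).add (summ1 (fun k => j - ln k))).add (summ1 (fun _ => j - 1))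
  refine Summable.of_nonneg_of_le ?_ ?_ h
  · intro p
    split_ifs
    · exact (wt_pos _).le
    · exact le_refl _
  · rintro ⟨k, t⟩
    have hw := (wt_pos k).le
    simp only
    have e1 : (if t = j then wt k else 0) ≥ 0 := by split_ifs <;> [exact hw; exact le_refl _]
    have e2 : (if t = j - ln k then wt k else 0) ≥ 0 := by
      split_ifs <;> [exact hw; exact le_refl _]
    have e3 : (if t = j - 1 then wt k else 0) ≥ 0 := by split_ifs <;> [exact hw; exact le_refl _]
    by_cases hj : j ∈ pat k t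
    · rw [if_pos hj]
      rw [mem_pat] at hj
      rcases hj with hj | hj | ⟨-, hj⟩
      · rw [if_pos hj.symm]
        linarith
      · have : t = j - ln k := by omega
        rw [if_pos this]
        linarith
      · have : t = j - 1 := by omega
        rw [if_pos this]
        linarith
    · rw [if_neg hj]
      linarith

lemma summE (E : Finset ℤ) :
    Summable (fun p : ℕ × ℤ => if (∃ j ∈ E, j ∈ pat p.1 p.2) then wt p.1 else 0) := by
  have h : Summable (fun p : ℕ × ℤ => ∑ j ∈ E, if j ∈ pat p.1 p.2 then wt p.1 else 0) :=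
    summable_sum (fun j _ => summ2 j)
  refine Summable.of_nonneg_of_le ?_ ?_ h
  · intro p
    split_ifs
    · exact (wt_pos _).le
    · exact le_refl _
  · rintro ⟨k, t⟩
    have hnn : ∀ j ∈ E, 0 ≤ (if j ∈ pat k t then wt k else 0) := by
      intro j _
      split_ifs
      · exact (wt_pos _).le
      · exact le_refl _
    split_ifs with h1
    · obtain ⟨j, hj, hj2⟩ := h1
      have := Finset.single_le_sum hnn hj
      rw [if_pos hj2] at this
      exact this
    · exact Finset.sum_nonneg hnn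

/-- the interaction -/
def Ph (L : Finset ℤ) (X : Cf) : ℝ :=
  if h : ∃ p : ℕ × ℤ, pat p.1 p.2 = L then
    (if ind h.choose.1 h.choose.2 X then wt h.choose.1 else 0) else 0

def Bd (L : Finset ℤ) : ℝ :=
  if h : ∃ p : ℕ × ℤ, pat p.1 p.2 = L then wt h.choose.1 else 0

lemma choose_eq (k : ℕ) (t : ℤ) (h : ∃ p : ℕ × ℤ, pat p.1 p.2 = pat k t) :
    h.choose = (k, t) := pat_inj h.choose_spec

lemma Ph_pat (k : ℕ) (t : ℤ) (X : Cf) : Ph (pat k t) X = if ind k t X then wt k else 0 := by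
  unfold Ph
  have h : ∃ p : ℕ × ℤ, pat p.1 p.2 = pat k t := ⟨(k, t), rfl⟩
  rw [dif_pos h, choose_eq k t h]

lemma Bd_pat (k : ℕ) (t : ℤ) : Bd (pat k t) = wt k := by
  unfold Bd
  have h : ∃ p : ℕ × ℤ, pat p.1 p.2 = pat k t := ⟨(k, t), rfl⟩
  rw [dif_pos h, choose_eq k t h]

lemma Ph_not (L : Finset ℤ) (X : Cf) (h : ¬ ∃ p : ℕ × ℤ, pat p.1 p.2 = L) : Ph L X = 0 := by
  unfold Ph
  rw [dif_neg h]

lemma Bd_not (L : Finset ℤ) (h : ¬ ∃ p : ℕ × ℤ, pat p.1 p.2 = L) : Bd L = 0 := by
  unfold Bd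
  rw [dif_neg h]

lemma Ph_bd (L : Finset ℤ) (X : Cf) : |Ph L X| ≤ Bd L := by
  by_cases h : ∃ p : ℕ × ℤ, pat p.1 p.2 = L
  · obtain ⟨⟨k, t⟩, rfl⟩ := h
    simp only
    rw [Ph_pat, Bd_pat]
    split_ifs
    · rw [abs_of_pos (wt_pos k)]
    · rw [abs_zero]; exact (wt_pos k).le
  · rw [Ph_not L X h, Bd_not L h, abs_zero]

lemma pat_image (k : ℕ) (t a : ℤ) : (pat k t).image (fun i => i + a) = pat k (t + a) := by
  ext j
  rw [Finset.mem_image, mem_pat]
  constructor
  · rintro ⟨i, hi, rfl⟩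
    rw [mem_pat] at hi
    omega
  · intro h
    refine ⟨j - a, ?_, by omega⟩
    rw [mem_pat]
    omega

lemma ind_shift (k : ℕ) (t a : ℤ) (X : Cf) : ind k (t + a) (shift a X) ↔ ind k t X := by
  unfold ind
  rw [← pat_image]
  constructor
  · intro h j hj
    have := h (j + a) (Finset.mem_image.mpr ⟨j, hj, rfl⟩)
    unfold shift at this
    rwa [add_sub_cancel_right] at this
  · intro h j hj
    obtain ⟨i, hi, rfl⟩ := Finset.mem_image.mp hj
    unfold shift
    rw [add_sub_cancel_right]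
    exact h i hi

/-- the interaction -/
def Phi : Inter where
  Φ := Ph
  loc := by
    intro L X Y hXY
    by_cases h : ∃ p : ℕ × ℤ, pat p.1 p.2 = L
    · obtain ⟨⟨k, t⟩, rfl⟩ := h
      simp only at hXY ⊢
      rw [Ph_pat, Ph_pat]
      have : ind k t X ↔ ind k t Y := by
        unfold ind
        constructor
        · intro h j hj
          rw [← hXY j hj]
          exact h j hj
        · intro h j hj
          rw [hXY j hj]
          exact h j hj
      simp only [this]
    · rw [Ph_not L X h, Ph_not L Y h]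
  inv := by
    intro L a X
    by_cases h : ∃ p : ℕ × ℤ, pat p.1 p.2 = L
    · obtain ⟨⟨k, t⟩, rfl⟩ := h
      simp only
      rw [pat_image, Ph_pat, Ph_pat]
      simp only [ind_shift]
    · rw [Ph_not L X h, Ph_not]
      rintro ⟨⟨k, t⟩, h2⟩
      apply h
      refine ⟨(k, t - a), ?_⟩
      simp only at h2 ⊢
      have h3 := pat_image k t (-a)
      rw [h2, Finset.image_image] at h3
      rw [sub_eq_add_neg, ← h3]
      ext j
      simp
  sum := by
    refine ⟨Bd, Ph_bd, ?_⟩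
    have hinj : Function.Injective (fun p : {p : ℕ × ℤ // (0 : ℤ) ∈ pat p.1 p.2} =>
        (⟨pat p.1.1 p.1.2, p.2⟩ : {L : Finset ℤ // (0 : ℤ) ∈ L})) := by
      rintro ⟨p, hp⟩ ⟨p', hp'⟩ h
      simp only [Subtype.mk.injEq] at h
      have := pat_inj h
      subst this
      rfl
    rw [← hinj.summable_iff]
    · have h := summ2 0
      have h2 : Summable (fun p : {p : ℕ × ℤ // (0 : ℤ) ∈ pat p.1 p.2} =>
          (fun p : ℕ × ℤ => if (0 : ℤ) ∈ pat p.1 p.2 then wt p.1 else 0) p) := h.subtype _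
      refine h2.congr ?_
      rintro ⟨⟨k, t⟩, hp⟩
      simp only [Function.comp] at hp ⊢
      rw [if_pos hp, Bd_pat]
    · rintro ⟨L, hL⟩ h
      apply Bd_not
      rintro ⟨p, hp⟩
      subst hp
      exact h ⟨⟨p, hL⟩, rfl⟩

lemma wrd_get (X : Cf) (a : ℤ) (N t : ℕ) (x : Fin 2) :
    (wrd X a N)[t]? = some x ↔ t < N ∧ X (a + t) = x := by
  unfold wrd
  rw [List.getElem?_map]
  by_cases h : t < N
  · rw [List.getElem?_range h]
    simp [h]
  · rw [List.getElem?_eq_none (by simpa using h)]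
    simp [h]

lemma wrd_len (X : Cf) (a : ℤ) (N : ℕ) : (wrd X a N).length = N := by
  unfold wrd
  simp

/-- number of occurrences inside the window -/
def cnt (k : ℕ) (X : Cf) (a : ℤ) (N : ℕ) : ℕ :=
  ((Finset.range N).filter (fun t : ℕ => t + ln k < N ∧ ind k (a + t) X)).card

lemma cnt0 (X : Cf) (a : ℤ) (N : ℕ) : V 1 (wrd X a N) = cnt 0 X a N := by
  unfold V cnt
  rw [wrd_len]
  congr 1
  apply Finset.filter_congr
  intro t ht
  rw [Finset.mem_range] at ht
  rw [wrd_get, wrd_get]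
  unfold ind
  show _ ↔ t + 1 < N ∧ ∀ j ∈ pat 0 (a + t), X j = 0
  simp only [pat, Finset.mem_insert, Finset.mem_singleton, forall_eq_or_imp, forall_eq]
  push_cast
  rw [add_assoc]
  tauto

lemma cnt1 (X : Cf) (a : ℤ) (N : ℕ) : T (wrd X a N) = cnt 1 X a N := by
  unfold T cnt
  rw [wrd_len]
  congr 1
  apply Finset.filter_congr
  intro t ht
  rw [Finset.mem_range] at ht
  rw [wrd_get, wrd_get, wrd_get]
  unfold ind
  show _ ↔ t + 2 < N ∧ ∀ j ∈ pat 1 (a + t), X j = 1
  simp only [pat, Finset.mem_insert, Finset.mem_singleton, forall_eq_or_imp, forall_eq]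
  push_cast
  rw [add_assoc, add_assoc]
  constructor
  · rintro ⟨⟨h1, h2⟩, ⟨h3, h4⟩, h5, h6⟩
    exact ⟨h5, h2, h4, h6⟩
  · rintro ⟨h1, h2, h3, h4⟩
    exact ⟨⟨ht, h2⟩, ⟨by omega, h3⟩, h1, h4⟩

lemma cnt2 (X : Cf) (a : ℤ) (N i : ℕ) : V (D (i + 1)) (wrd X a N) = cnt (i + 2) X a N := by
  unfold V cnt
  rw [wrd_len]
  congr 1
  apply Finset.filter_congr
  intro t ht
  rw [Finset.mem_range] at ht
  rw [wrd_get, wrd_get]
  unfold ind
  have e : ltr (i + 2) = 0 := by
    unfold ltr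
    rw [if_neg (by omega)]
  rw [e]
  show _ ↔ t + D (i + 1) < N ∧ ∀ j ∈ pat (i + 2) (a + t), X j = 0
  simp only [pat, Finset.mem_insert, Finset.mem_singleton, forall_eq_or_imp, forall_eq]
  push_cast
  rw [add_assoc]
  tauto

lemma G_eq (X : Cf) (a : ℤ) (N : ℕ) :
    G (wrd X a N) = ∑ k ∈ Finset.range (N + 2), wt k * cnt k X a N := by
  unfold G
  rw [wrd_len, cnt0, cnt1, Finset.sum_range_succ', Finset.sum_range_succ']
  have h : ∀ N : ℕ, ∀ f : ℕ → ℝ, ∑ i ∈ Finset.Icc 1 N, f i = ∑ i ∈ Finset.range N, f (i + 1) := by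
    intro N f
    induction N with
    | zero => simp
    | succ N ih => rw [Finset.sum_Icc_succ_top (by omega), ih, Finset.sum_range_succ]
  rw [h]
  have e1 : wt 0 = 1 := rfl
  have e2 : wt (0 + 1) = 1 := rfl
  rw [e1, e2]
  have e3 : ∑ i ∈ Finset.range N, lam ^ (i + 1) * (V (D (i + 1)) (wrd X a N) : ℝ) =
      ∑ i ∈ Finset.range N, wt (i + 1 + 1) * (cnt (i + 1 + 1) X a N : ℝ) := by
    refine Finset.sum_congr rfl fun i _ => ?_
    rw [cnt2]
    rfl
  rw [e3]
  ring

lemma cnt_sum (k : ℕ) (X : Cf) (a : ℤ) (N : ℕ) : wt k * (cnt k X a N : ℝ) =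
    ∑ t ∈ (Finset.range N).image (fun t : ℕ => a + (t : ℤ)),
      if (t + ln k < a + N ∧ ind k t X) then wt k else 0 := by
  rw [Finset.sum_image (by intro x _ y _ h; simpa using h)]
  unfold cnt
  rw [Finset.card_filter]
  push_cast
  rw [Finset.mul_sum]
  refine Finset.sum_congr rfl fun t _ => ?_
  have : (t + ln k < N) ↔ (a + (t : ℤ) + ln k < a + N) := by omega
  simp only [this]
  split_ifs <;> simp

lemma zero_ind (X : Cf) (hX : Zero X) (k : ℕ) (t : ℤ) : ¬ ind k t X := by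
  intro h
  have h1 := hX t (ln k + 1)
  rw [G_eq] at h1
  have h2 := (Finset.sum_eq_zero_iff_of_nonneg (fun i _ =>
    mul_nonneg (wt_pos i).le (Nat.cast_nonneg _))).mp h1 k
    (Finset.mem_range.mpr (by have := le_ln k; omega))
  rcases mul_eq_zero.mp h2 with h3 | h3
  · exact (wt_pos k).ne' h3
  · have h4 : cnt k X t (ln k + 1) = 0 := by exact_mod_cast h3
    unfold cnt at h4
    rw [Finset.card_eq_zero] at h4
    have h5 : 0 ∈ ((Finset.range (ln k + 1)).filter
        (fun s : ℕ => s + ln k < ln k + 1 ∧ ind k (t + s) X)) := by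
      rw [Finset.mem_filter]
      refine ⟨by simp, by omega, ?_⟩
      simpa using h
    rw [h4] at h5
    simp at h5

lemma ind_congr (k : ℕ) (t : ℤ) (X Y : Cf) (h : ∀ j ∈ pat k t, X j = Y j) :
    ind k t X ↔ ind k t Y := by
  unfold ind
  constructor
  · intro g j hj
    rw [← h j hj]
    exact g j hj
  · intro g j hj
    rw [h j hj]
    exact g j hj

/-- the terms of the relative energy -/
def Ft (X Y : Cf) (p : ℕ × ℤ) : ℝ :=
  (if ind p.1 p.2 Y then wt p.1 else 0) - (if ind p.1 p.2 X then wt p.1 else 0)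

lemma Ft_summable (X Y : Cf) (h : Loc Y X) : Summable (Ft X Y) := by
  have h' : {i | Y i ≠ X i}.Finite := h
  obtain ⟨E, hE⟩ : ∃ E : Finset ℤ, ∀ i, i ∈ E ↔ Y i ≠ X i := ⟨h'.toFinset, fun i => by
    rw [Set.Finite.mem_toFinset]; rfl⟩
  refine Summable.of_norm_bounded (summE E) ?_
  rintro ⟨k, t⟩
  unfold Ft
  simp only
  by_cases h1 : ∃ j ∈ E, j ∈ pat k t
  · rw [if_pos h1, Real.norm_eq_abs]
    have := wt_pos k
    split_ifs
    · simp; exact this.le
    · simp [abs_of_pos this]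
    · simp [abs_of_pos this]
    · simp; exact this.le
  · rw [if_neg h1]
    have : ind k t Y ↔ ind k t X := by
      apply ind_congr
      intro j hj
      by_contra h2
      exact h1 ⟨j, (hE j).mpr h2, hj⟩
    simp only [this]
    simp

lemma Hrel_eq (X Y : Cf) : Hrel Phi Y X = ∑' p : ℕ × ℤ, Ft X Y p := by
  unfold Hrel
  have h := pat_inj.tsum_eq (f := fun L : Finset ℤ => Phi.Φ L Y - Phi.Φ L X) ?_
  · rw [← h]
    refine tsum_congr ?_
    rintro ⟨k, t⟩
    show Ph (pat k t) Y - Ph (pat k t) X = _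
    rw [Ph_pat, Ph_pat]
    rfl
  · intro L hL
    by_contra h
    apply hL
    show Ph L Y - Ph L X = 0
    rw [Ph_not, Ph_not, sub_zero]
    · rintro ⟨p, hp⟩; exact h ⟨p, hp⟩
    · rintro ⟨p, hp⟩; exact h ⟨p, hp⟩

lemma first (X Y : Cf) (hX : Zero X) (hYX : Loc Y X) (a : ℤ) (N : ℕ) :
    G (wrd Y a N) ≤ Hrel Phi Y X := by
  rw [Hrel_eq, G_eq]
  have hF : ∀ p, Ft X Y p = if ind p.1 p.2 Y then wt p.1 else 0 := by
    intro p
    unfold Ft
    rw [if_neg (zero_ind X hX p.1 p.2), sub_zero]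
  have hF0 : ∀ p, 0 ≤ Ft X Y p := by
    intro p
    rw [hF]
    split_ifs
    · exact (wt_pos _).le
    · exact le_refl _
  refine le_trans ?_ ((Ft_summable X Y hYX).sum_le_tsum
    (Finset.range (N + 2) ×ˢ (Finset.range N).image (fun t : ℕ => a + (t : ℤ)))
    (fun p _ => hF0 p))
  rw [Finset.sum_product]
  refine Finset.sum_le_sum fun k _ => ?_
  rw [cnt_sum]
  refine Finset.sum_le_sum fun t _ => ?_
  rw [hF]
  simp only
  by_cases h1 : ind k t Y
  · rw [if_pos h1]
    split_ifs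
    · exact le_refl _
    · exact (wt_pos _).le
  · rw [if_neg h1, if_neg (fun h => h1 h.2)]

/-- crossing patterns -/
def crs (N : ℕ) (k : ℕ) (t : ℤ) : Prop :=
  ¬ (0 ≤ t ∧ t + ln k < N) ∧ ∃ j ∈ Finset.Ico (0 : ℤ) N, j ∈ pat k t

lemma crs_bd (N k : ℕ) (t : ℤ) (h : crs N k t) :
    (t ∈ Finset.Ico (-(ln k : ℤ)) 0 ∨ t ∈ Finset.Ico ((N : ℤ) - ln k) N) ∧
    (k ≠ 1 → (t ∈ Finset.Ico (0 : ℤ) N ∨ t ∈ Finset.Ico (-(ln k : ℤ)) (N - ln k))) := by
  obtain ⟨h1, j, hj, hj2⟩ := h
  rw [mem_pat] at hj2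
  rw [Finset.mem_Ico] at hj
  have hl := ln_pos k
  have hl2 : k = 1 → 2 ≤ ln k := two_le_ln
  simp only [Finset.mem_Ico]
  constructor
  · omega
  · intro hk
    omega

/-- the finite set of crossing patterns -/
def Cr (N k : ℕ) : Finset ℤ :=
  (Finset.Ico (-(ln k : ℤ)) 0 ∪ Finset.Ico ((N : ℤ) - ln k) N).filter (fun t => crs N k t)

lemma mem_Cr (N k : ℕ) (t : ℤ) : t ∈ Cr N k ↔ crs N k t := by
  unfold Cr
  rw [Finset.mem_filter, Finset.mem_union]
  constructor
  · exact fun h => h.2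
  · exact fun h => ⟨(crs_bd N k t h).1, h⟩

lemma Cr_card1 (N k : ℕ) : (Cr N k).card ≤ 2 * ln k := by
  refine (Finset.card_filter_le _ _).trans ((Finset.card_union_le _ _).trans ?_)
  rw [Int.card_Ico, Int.card_Ico]
  omega

lemma Cr_card2 (N k : ℕ) (hk : k ≠ 1) : (Cr N k).card ≤ 2 * N := by
  have : Cr N k ⊆ Finset.Ico (0 : ℤ) N ∪ Finset.Ico (-(ln k : ℤ)) (N - ln k) := by
    intro t ht
    rw [mem_Cr] at ht
    rw [Finset.mem_union]
    exact (crs_bd N k t ht).2 hk
  refine (Finset.card_le_card this).trans ((Finset.card_union_le _ _).trans ?_)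
  rw [Int.card_Ico, Int.card_Ico]
  omega

lemma crs_summable (N : ℕ) :
    Summable (fun p : ℕ × ℤ => if crs N p.1 p.2 then wt p.1 else 0) := by
  refine Summable.of_nonneg_of_le ?_ ?_ (summE (Finset.Ico (0 : ℤ) N))
  · intro p
    split_ifs
    · exact (wt_pos _).le
    · exact le_refl _
  · rintro ⟨k, t⟩
    simp only
    by_cases h : crs N k t
    · rw [if_pos h, if_pos h.2]
    · rw [if_neg h]
      split_ifs
      · exact (wt_pos _).le
      · exact le_refl _

lemma summable_bet (N : ℕ) : Summable (fun i : ℕ => lam ^ i * min (D i : ℝ) N) := by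
  have h : Summable (fun i : ℕ => lam ^ i * (N : ℝ)) :=
    (summable_geometric_of_lt_one (by unfold lam; norm_num) (by unfold lam; norm_num)).mul_right _
  refine Summable.of_nonneg_of_le ?_ ?_ h
  · intro i
    unfold lam
    positivity
  · intro i
    refine mul_le_mul_of_nonneg_left (min_le_right _ _) ?_
    unfold lam
    positivity

lemma crs_bet (N : ℕ) :
    ∑' p : ℕ × ℤ, (if crs N p.1 p.2 then wt p.1 else 0) ≤ bet N := by
  rw [(crs_summable N).tsum_prod]
  have hin : ∀ k : ℕ, ∑' t : ℤ, (if crs N k t then wt k else 0) = wt k * (Cr N k).card := by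
    intro k
    rw [tsum_eq_sum (s := Cr N k)]
    · rw [Finset.sum_congr rfl (g := fun _ => wt k)]
      · rw [Finset.sum_const, nsmul_eq_mul, mul_comm]
      · intro t ht
        rw [if_pos ((mem_Cr N k t).mp ht)]
    · intro t ht
      rw [if_neg (fun h => ht ((mem_Cr N k t).mpr h))]
  simp only [hin]
  have hs : Summable (fun k : ℕ => wt k * ((Cr N k).card : ℝ)) := by
    have := (crs_summable N).prod
    refine this.congr ?_
    intro k
    exact (hin k)
  rw [← hs.sum_add_tsum_nat_add 2]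
  have hb := summable_bet N
  have hb1 : Summable (fun i : ℕ => lam ^ (i + 1) * min (D (i + 1) : ℝ) N) :=
    (summable_nat_add_iff 1).mpr hb
  have e0 : ∑ i ∈ Finset.range 2, wt i * ((Cr N i).card : ℝ) ≤ 6 := by
    rw [Finset.sum_range_succ, Finset.sum_range_one]
    have h0 : (Cr N 0).card ≤ 2 := Cr_card1 N 0
    have h1 : (Cr N 1).card ≤ 4 := Cr_card1 N 1
    have h0' : ((Cr N 0).card : ℝ) ≤ 2 := by exact_mod_cast h0
    have h1' : ((Cr N 1).card : ℝ) ≤ 4 := by exact_mod_cast h1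
    have w0 : wt 0 = 1 := rfl
    have w1 : wt 1 = 1 := rfl
    rw [w0, w1]
    linarith
  have e1 : ∑' i : ℕ, wt (i + 2) * ((Cr N (i + 2)).card : ℝ) ≤
      ∑' i : ℕ, 2 * (lam ^ (i + 1) * min (D (i + 1) : ℝ) N) := by
    refine Summable.tsum_le_tsum ?_ ((summable_nat_add_iff 2).mpr hs) (hb1.mul_left 2)
    intro i
    have w : wt (i + 2) = lam ^ (i + 1) := rfl
    rw [w]
    have c1 : ((Cr N (i + 2)).card : ℝ) ≤ 2 * (D (i + 1) : ℝ) := by
      exact_mod_cast Cr_card1 N (i + 2)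
    have c2 : ((Cr N (i + 2)).card : ℝ) ≤ 2 * (N : ℝ) := by
      exact_mod_cast Cr_card2 N (i + 2) (by omega)
    have c3 : ((Cr N (i + 2)).card : ℝ) ≤ 2 * min (D (i + 1) : ℝ) N := by
      rcases le_total (D (i + 1) : ℝ) N with h | h
      · rw [min_eq_left h]; exact c1
      · rw [min_eq_right h]; exact c2
    have hl : 0 ≤ lam ^ (i + 1) := by unfold lam; positivity
    calc lam ^ (i + 1) * ((Cr N (i + 2)).card : ℝ) ≤
        lam ^ (i + 1) * (2 * min (D (i + 1) : ℝ) N) := mul_le_mul_of_nonneg_left c3 hl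
      _ = _ := by ring
  rw [tsum_mul_left] at e1
  have e2 : ∑' i : ℕ, lam ^ (i + 1) * min (D (i + 1) : ℝ) N ≤
      ∑' i : ℕ, lam ^ i * min (D i : ℝ) N := by
    rw [hb.tsum_eq_zero_add]
    have : 0 ≤ lam ^ 0 * min (D 0 : ℝ) N := by
      unfold lam
      positivity
    linarith
  have e3 : 0 ≤ ∑' i : ℕ, lam ^ i * min (D i : ℝ) N := by
    refine tsum_nonneg ?_
    intro i
    unfold lam
    positivity
  unfold bet
  linarith

lemma second (X Y Z : Cf) (hZ : Zero Z) (N : ℕ) (h1 : ∀ i : ℤ, 0 ≤ i → i < N → Y i = Z i)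
    (h2 : ∀ i : ℤ, ¬ (0 ≤ i ∧ i < N) → Y i = X i) : Hrel Phi Y X ≤ bet N - G (wrd X 0 N) := by
  have hloc : Loc Y X := by
    refine (Set.finite_Ico (0 : ℤ) N).subset ?_
    intro i hi
    by_contra h3
    exact hi (h2 i h3)
  have hF := Ft_summable X Y hloc
  have hI : Summable (fun p : ℕ × ℤ =>
      if ((0 ≤ p.2 ∧ p.2 + ln p.1 < N) ∧ ind p.1 p.2 X) then wt p.1 else 0) := by
    refine Summable.of_nonneg_of_le ?_ ?_ (summE (Finset.Ico (0 : ℤ) N))
    · intro p
      split_ifs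
      · exact (wt_pos _).le
      · exact le_refl _
    · rintro ⟨k, t⟩
      simp only
      by_cases h : ((0 ≤ t ∧ t + ln k < N) ∧ ind k t X)
      · rw [if_pos h, if_pos]
        refine ⟨t, ?_, ?_⟩
        · rw [Finset.mem_Ico]
          have := h.1
          omega
        · rw [mem_pat]
          left
          rfl
      · rw [if_neg h]
        split_ifs
        · exact (wt_pos _).le
        · exact le_refl _
  have hC := crs_summable N
  have hle : ∀ p : ℕ × ℤ, Ft X Y p ≤ (if crs N p.1 p.2 then wt p.1 else 0) -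
      (if ((0 ≤ p.2 ∧ p.2 + ln p.1 < N) ∧ ind p.1 p.2 X) then wt p.1 else 0) := by
    rintro ⟨k, t⟩
    unfold Ft
    simp only
    have hw := (wt_pos k).le
    by_cases hin : 0 ≤ t ∧ t + ln k < N
    · have hY : ¬ ind k t Y := by
        rw [ind_congr k t Y Z]
        · exact zero_ind Z hZ k t
        · intro j hj
          rw [mem_pat] at hj
          have := ln_pos k
          have hl2 : k = 1 → 2 ≤ ln k := two_le_ln
          apply h1 <;> omega
      have hc : ¬ crs N k t := fun h => h.1 hin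
      rw [if_neg hY, if_neg hc]
      simp [hin]
    · have e1 : ¬ ((0 ≤ t ∧ t + ln k < N) ∧ ind k t X) := fun h => hin h.1
      rw [if_neg e1, sub_zero]
      by_cases hc : crs N k t
      · rw [if_pos hc]
        split_ifs <;> linarith
      · rw [if_neg hc]
        have : ind k t Y ↔ ind k t X := by
          apply ind_congr
          intro j hj
          apply h2
          intro hj2
          exact hc ⟨hin, j, Finset.mem_Ico.mpr hj2, hj⟩
        simp only [this]
        simp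
  rw [Hrel_eq]
  have h3 := Summable.tsum_le_tsum hle hF (hC.sub hI)
  rw [hC.tsum_sub hI] at h3
  have h4 := crs_bet N
  have h5 : G (wrd X 0 N) ≤ ∑' p : ℕ × ℤ,
      (if ((0 ≤ p.2 ∧ p.2 + ln p.1 < N) ∧ ind p.1 p.2 X) then wt p.1 else 0) := by
    rw [G_eq]
    refine le_trans ?_ (hI.sum_le_tsum
      (Finset.range (N + 2) ×ˢ (Finset.range N).image (fun t : ℕ => (0 : ℤ) + (t : ℤ)))
      (fun p _ => ?_))
    · rw [Finset.sum_product]
      refine Finset.sum_le_sum fun k _ => ?_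
      rw [cnt_sum]
      refine Finset.sum_le_sum fun t ht => ?_
      obtain ⟨s, -, rfl⟩ := Finset.mem_image.mp ht
      simp only
      by_cases h6 : (0 : ℤ) + s + ln k < 0 + N ∧ ind k (0 + (s : ℤ)) X
      · rw [if_pos h6, if_pos]
        exact ⟨⟨by omega, by have := h6.1; omega⟩, h6.2⟩
      · rw [if_neg h6]
        split_ifs
        · exact (wt_pos _).le
        · exact le_refl _
    · split_ifs
      · exact (wt_pos _).le
      · exact le_refl _
  linarith

theorem phip : S_PHI := ⟨Phi, fun X Y hX hYX a N => first X Y hX hYX a N,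
  fun X Y Z hZ N h1 h2 => second X Y Z hZ N h1 h2⟩

end Pool.Agent.W451.STS
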